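import Mathlib
import Pool.Agent.H388SL.Field
import Pool.Agent.Y947.DM.Lcm

/-!
# Relative conjugates

`K / F` is an extension of number fields; the embeddings of `K` are grouped into fibres according to
their restrictions to `F`.
-/

set_option autoImplicit false

open Finset Polynomial Module Pool.Agent.H388SL

namespace Pool.Agent.R383.Rel

variable {F K : Type*} [Field F] [NumberField F] [Field K] [NumberField K] [Algebra F K]

/-- restriction of an embedding -/
noncomputable def res (F : Type*) [Field F] {K : Type*} [Field K] [NumberField K] [Algebra F K]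
    (σ : K →ₐ[ℚ] ℂ) : F →+* ℂ := (σ : K →+* ℂ).comp (algebraMap F K)

/-- `β` generates `K` over `F` -/
def Gen (F : Type*) [Field F] {K : Type*} [Field K] [Algebra F K] (β : K) : Prop :=
  IntermediateField.adjoin F {β} = ⊤

lemma eq_of_gen {γ : K} (hγ : Gen F γ) {σ τ : K →ₐ[ℚ] ℂ} (h : res F σ = res F τ) (h2 : σ γ = τ γ) :
    σ = τ := by
  have h1 : (⊤ : Subfield K) ≤ RingHom.eqLocusField (σ : K →+* ℂ) (τ : K →+* ℂ) := by
    have h3 : (IntermediateField.adjoin F {γ}).toSubfield = ⊤ := by
      rw [show IntermediateField.adjoin F {γ} = ⊤ from hγ, IntermediateField.top_toSubfield]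
    rw [← h3, IntermediateField.adjoin_toSubfield, Subfield.closure_le]
    intro x hx
    rcases hx with ⟨a, rfl⟩ | hx
    · exact RingHom.congr_fun h a
    · rw [Set.mem_singleton_iff] at hx
      rw [hx]
      exact h2
  ext x
  exact h1 (Subfield.mem_top x)

open Classical in
/-- the fibre of an embedding of `F` -/
noncomputable def fib (K : Type*) [Field K] [NumberField K] [Algebra F K] (w : F →+* ℂ) :
    Finset (K →ₐ[ℚ] ℂ) := Finset.univ.filter fun σ => res F σ = w

lemma mem_fib {w : F →+* ℂ} {σ : K →ₐ[ℚ] ℂ} : σ ∈ fib K w ↔ res F σ = w := by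
  unfold fib
  simp

lemma finite_ext : FiniteDimensional F K := FiniteDimensional.right ℚ F K

lemma eval_root (w : F →+* ℂ) (γ : K) {σ : K →ₐ[ℚ] ℂ} (hσ : σ ∈ fib K w) :
    ((minpoly F γ).map w).eval (σ γ) = 0 := by
  rw [mem_fib] at hσ
  rw [Polynomial.eval_map, ← hσ]
  have h := Polynomial.hom_eval₂ (minpoly F γ) (algebraMap F K) (σ : K →+* ℂ) γ
  rw [← Polynomial.aeval_def, minpoly.aeval, map_zero] at h
  exact h.symm

lemma prod_dvd {γ : K} (hγ : Gen F γ) (w : F →+* ℂ) :
    ∏ σ ∈ fib K w, (X - C (σ γ)) ∣ (minpoly F γ).map w := by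
  apply Finset.prod_dvd_of_coprime
  · intro σ hσ τ hτ hne
    apply isCoprime_X_sub_C_of_isUnit_sub
    apply IsUnit.mk0
    rw [sub_ne_zero]
    intro h
    apply hne
    apply eq_of_gen hγ _ h
    rw [mem_fib.mp (Finset.mem_coe.mp hσ), mem_fib.mp (Finset.mem_coe.mp hτ)]
  · intro σ hσ
    exact dvd_iff_isRoot.mpr (eval_root w γ hσ)

lemma fib_card_le {γ : K} (hγ : Gen F γ) (w : F →+* ℂ) : (fib K w).card ≤ finrank F K := by
  have := finite_ext (F := F) (K := K)
  have hint : IsIntegral F γ := Algebra.IsIntegral.isIntegral γ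
  have h1 := Polynomial.natDegree_le_of_dvd (prod_dvd hγ w)
    (Polynomial.map_ne_zero (minpoly.ne_zero hint))
  rw [Polynomial.natDegree_prod_of_monic _ _ (fun σ _ => monic_X_sub_C _), Polynomial.natDegree_map] at h1
  simp only [natDegree_X_sub_C, Finset.sum_const, smul_eq_mul, mul_one] at h1
  refine h1.trans (le_of_eq ?_)
  have h2 := IntermediateField.adjoin.finrank hint
  rw [show IntermediateField.adjoin F {γ} = ⊤ from hγ, IntermediateField.finrank_top'] at h2
  exact h2.symm

lemma fib_card {γ : K} (hγ : Gen F γ) (w : F →+* ℂ) : (fib K w).card = finrank F K := by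
  classical
  have h1 : ∑ w : F →+* ℂ, (fib K w).card = ∑ w : F →+* ℂ, finrank F K := by
    rw [Finset.sum_const, Finset.card_univ, NumberField.Embeddings.card, smul_eq_mul,
      Module.finrank_mul_finrank]
    have h2 : Fintype.card (K →ₐ[ℚ] ℂ) = finrank ℚ K := AlgHom.card ℚ K ℂ
    rw [← h2, ← Finset.card_univ]
    rw [Finset.card_eq_sum_card_fiberwise (f := fun σ : K →ₐ[ℚ] ℂ => res F σ)
      (t := (Finset.univ : Finset (F →+* ℂ))) (fun σ _ => Finset.mem_coe.mpr (Finset.mem_univ _))]
    refine Finset.sum_congr rfl fun w _ => ?_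
    unfold fib
    congr 1
  exact (Finset.sum_eq_sum_iff_of_le fun w _ => fib_card_le hγ w).mp h1 w (Finset.mem_univ w)

lemma minpoly_eq_prod {γ : K} (hγ : Gen F γ) (w : F →+* ℂ) :
    (minpoly F γ).map w = ∏ σ ∈ fib K w, (X - C (σ γ)) := by
  have := finite_ext (F := F) (K := K)
  have hint : IsIntegral F γ := Algebra.IsIntegral.isIntegral γ
  apply Polynomial.eq_of_monic_of_dvd_of_natDegree_le
  · exact monic_prod_of_monic _ _ fun σ _ => monic_X_sub_C _
  · exact (minpoly.monic hint).map _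
  · exact prod_dvd hγ w
  · rw [Polynomial.natDegree_prod_of_monic _ _ (fun σ _ => monic_X_sub_C _), Polynomial.natDegree_map]
    simp only [natDegree_X_sub_C, Finset.sum_const, smul_eq_mul, mul_one]
    rw [fib_card hγ w]
    have h2 := IntermediateField.adjoin.finrank hint
    rw [show IntermediateField.adjoin F {γ} = ⊤ from hγ, IntermediateField.finrank_top'] at h2
    exact h2.symm.le

/-- evaluation of a twisted minimal polynomial -/
noncomputable def tw (ψ : F →+* F) (γ x : K) : K := eval₂ (algebraMap F K) x ((minpoly F γ).map ψ)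

lemma map_tw {γ : K} (hγ : Gen F γ) (ψ : F →+* F) (x : K) (σ : K →ₐ[ℚ] ℂ) :
    σ (tw ψ γ x) = ∏ τ ∈ fib K ((res F σ).comp ψ), (σ x - τ γ) := by
  have h1 : σ (tw ψ γ x) = eval₂ ((σ : K →+* ℂ).comp (algebraMap F K)) (σ x) ((minpoly F γ).map ψ) :=
    Polynomial.hom_eval₂ _ _ (σ : K →+* ℂ) x
  rw [h1, Polynomial.eval₂_map]
  have h2 : ((σ : K →+* ℂ).comp (algebraMap F K)).comp ψ = (res F σ).comp ψ := rfl
  rw [h2, ← Polynomial.eval_map, minpoly_eq_prod hγ, Polynomial.eval_prod]
  simp

end Pool.Agent.R383.Rel
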