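import Mathlib
import Pool.Agent.R383.Rel.Field

/-!
# Integrality and Frobenius congruences for relative conjugates
-/

set_option autoImplicit false

open Finset Polynomial Module Pool.Agent.H388SL NumberField

namespace Pool.Agent.R383.Rel

variable {F K : Type*} [Field F] [NumberField F] [Field K] [NumberField K] [Algebra F K]

lemma isIntegral_eval {x : K} (hx : IsIntegral ℤ x) (G : (𝓞 F)[X]) :
    IsIntegral ℤ (eval₂ (algebraMap (𝓞 F) K) x G) := by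
  rw [Polynomial.eval₂_eq_sum_range]
  apply IsIntegral.sum
  intro i _
  apply IsIntegral.mul _ (hx.pow i)
  have h : IsIntegral ℤ (G.coeff i) := RingOfIntegers.isIntegral _
  exact h.map (algebraMap (𝓞 F) K).toIntAlgHom

lemma minpoly_eq (γ : K) (hγ : IsIntegral ℤ γ) :
    minpoly F γ = (minpoly (𝓞 F) γ).map (algebraMap (𝓞 F) F) := by
  exact minpoly.isIntegrallyClosed_eq_field_fractions' F hγ.tower_top

lemma tw_eq (ψ : F →+* F) (γ x : K) (hγ : IsIntegral ℤ γ) :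
    tw ψ γ x = eval₂ (algebraMap (𝓞 F) K) x ((minpoly (𝓞 F) γ).map (RingOfIntegers.mapRingHom ψ)) := by
  unfold tw
  rw [minpoly_eq γ hγ, Polynomial.map_map, Polynomial.eval₂_map, Polynomial.eval₂_map]
  congr 1

lemma tw_isIntegral (ψ : F →+* F) {γ x : K} (hγ : IsIntegral ℤ γ) (hx : IsIntegral ℤ x) :
    IsIntegral ℤ (tw ψ γ x) := by
  rw [tw_eq ψ γ x hγ]
  exact isIntegral_eval hx _

/-- `φ` is a Frobenius automorphism at `p` -/
def IsFrob (p : ℕ) (φ : F ≃+* F) : Prop :=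
  ∀ a : 𝓞 F, (p : 𝓞 F) ∣ RingOfIntegers.mapRingHom (φ : F →+* F) a - a ^ p

lemma frob_poly {R : Type*} [CommRing R] {p : ℕ} (hp : p.Prime) (φ : R →+* R)
    (hφ : ∀ a : R, (p : R) ∣ φ a - a ^ p) (f : R[X]) :
    (p : R[X]) ∣ expand R p (f.map φ) - f ^ p := by
  induction f using Polynomial.induction_on' with
  | add f g hf hg =>
    obtain ⟨r, hr⟩ := exists_add_pow_prime_eq hp f g
    rw [hr, Polynomial.map_add, map_add]
    have e : ∀ a b c d s : R[X], a + b - (c + d + s) = (a - c) + (b - d) - s := by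
      intro a b c d s; ring
    rw [e]
    exact dvd_sub (dvd_add hf hg) ⟨f * g * r, by ring⟩
  | monomial n a =>
    obtain ⟨b, hb⟩ := hφ a
    rw [Polynomial.map_monomial, Polynomial.expand_monomial, Polynomial.monomial_pow,
      ← map_sub, hb]
    refine ⟨monomial (n * p) b, ?_⟩
    rw [← C_eq_natCast, Polynomial.C_mul_monomial]

/-- Frobenius congruence -/
lemma tw_frob {p : ℕ} (hp : p.Prime) {φ : F ≃+* F} (hφ : IsFrob p φ) {α : K} (hα : IsIntegral ℤ α) :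
    ∃ y : K, IsIntegral ℤ y ∧ tw (φ : F →+* F) α (α ^ p) = p * y := by
  obtain ⟨h, hh⟩ := frob_poly hp _ hφ (minpoly (𝓞 F) α)
  refine ⟨eval₂ (algebraMap (𝓞 F) K) α h, isIntegral_eval hα h, ?_⟩
  rw [tw_eq _ _ _ hα]
  have e1 : expand (𝓞 F) p ((minpoly (𝓞 F) α).map (RingOfIntegers.mapRingHom (φ : F →+* F))) =
      (minpoly (𝓞 F) α) ^ p + (p : (𝓞 F)[X]) * h := by
    rw [← hh]; ring
  have e2 := congrArg (aeval α) e1
  rw [Polynomial.expand_aeval, map_add, map_pow, map_mul, minpoly.aeval, zero_pow hp.ne_zero,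
    zero_add, map_natCast] at e2
  exact e2

/-- cross terms -/
lemma one_le_tw (ψ : F →+* F) {γ x : K} (hγ : IsIntegral ℤ γ) (hx : IsIntegral ℤ x) (hg : Gen F γ)
    (hne : ∀ σ τ : K →ₐ[ℚ] ℂ, σ x ≠ τ γ) :
    1 ≤ ∏ σ : K →ₐ[ℚ] ℂ, ∏ τ ∈ fib K ((res F σ).comp ψ), ‖σ x - τ γ‖ := by
  have e : ∀ σ : K →ₐ[ℚ] ℂ, ∏ τ ∈ fib K ((res F σ).comp ψ), ‖σ x - τ γ‖ = ‖σ (tw ψ γ x)‖ := by
    intro σ
    rw [map_tw hg, norm_prod]
  simp_rw [e]
  apply one_le_prod_norm (tw_isIntegral ψ hγ hx)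
  intro h0
  obtain ⟨σ⟩ : Nonempty (K →ₐ[ℚ] ℂ) := ⟨IsAlgClosed.lift⟩
  have h1 := map_tw hg ψ x σ
  rw [h0, map_zero] at h1
  obtain ⟨τ, _, hτ⟩ := Finset.prod_eq_zero_iff.mp h1.symm
  exact hne σ τ (sub_eq_zero.mp hτ)

/-- the gain -/
lemma pow_le_tw {p : ℕ} (hp : p.Prime) {φ : F ≃+* F} (hφ : IsFrob p φ) {α : K} (hα : IsIntegral ℤ α)
    (hg : Gen F α) (hne : ∀ σ τ : K →ₐ[ℚ] ℂ, σ (α ^ p) ≠ τ α) :
    (p : ℝ) ^ finrank ℚ K ≤
      ∏ σ : K →ₐ[ℚ] ℂ, ∏ τ ∈ fib K ((res F σ).comp (φ : F →+* F)), ‖σ (α ^ p) - τ α‖ := by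
  obtain ⟨y, hy, hty⟩ := tw_frob hp hφ hα
  have e : ∀ σ : K →ₐ[ℚ] ℂ, ∏ τ ∈ fib K ((res F σ).comp (φ : F →+* F)), ‖σ (α ^ p) - τ α‖ =
      ‖σ ((p : K) * y)‖ := by
    intro σ
    rw [← hty, map_tw hg, norm_prod]
  simp_rw [e]
  apply pow_le_prod_norm hy
  intro h0
  obtain ⟨σ⟩ : Nonempty (K →ₐ[ℚ] ℂ) := ⟨IsAlgClosed.lift⟩
  have h1 := map_tw hg (φ : F →+* F) (α ^ p) σ
  rw [hty, h0, mul_zero, map_zero] at h1
  obtain ⟨τ, _, hτ⟩ := Finset.prod_eq_zero_iff.mp h1.symm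
  exact hne σ τ (sub_eq_zero.mp hτ)

/-- relative discriminants -/
lemma one_le_reldisc [DecidableEq (K →ₐ[ℚ] ℂ)] {β : K} (hβ : IsIntegral ℤ β) (hg : Gen F β) :
    1 ≤ ∏ σ : K →ₐ[ℚ] ℂ, ∏ τ ∈ (fib K (res F σ)).erase σ, ‖σ β - τ β‖ := by
  set y : K := eval₂ (algebraMap (𝓞 F) K) β (derivative (minpoly (𝓞 F) β)) with hy
  have hyF : y = eval₂ (algebraMap F K) β (derivative (minpoly F β)) := by
    rw [hy, minpoly_eq β hβ, Polynomial.derivative_map, Polynomial.eval₂_map]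
    congr 1
  have e : ∀ σ : K →ₐ[ℚ] ℂ, σ y = ∏ τ ∈ (fib K (res F σ)).erase σ, (σ β - τ β) := by
    intro σ
    have h1 : σ y = eval₂ (res F σ) (σ β) (derivative (minpoly F β)) := by
      rw [hyF]
      exact Polynomial.hom_eval₂ _ _ (σ : K →+* ℂ) β
    have hσ : σ ∈ fib K (res F σ) := mem_fib.mpr rfl
    rw [h1, ← Polynomial.eval_map, ← Polynomial.derivative_map, minpoly_eq_prod hg,
      Polynomial.derivative_prod_finset, Polynomial.eval_finsetSum]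
    rw [Finset.sum_eq_single σ]
    · rw [Polynomial.eval_mul, Polynomial.eval_prod]
      simp
    · intro τ _ hτ
      rw [Polynomial.eval_mul, Polynomial.eval_prod]
      rw [Finset.prod_eq_zero (i := σ)]
      · simp
      · exact Finset.mem_erase.mpr ⟨Ne.symm hτ, hσ⟩
      · simp
    · intro h
      exact absurd hσ h
  have e' : ∀ σ : K →ₐ[ℚ] ℂ, ∏ τ ∈ (fib K (res F σ)).erase σ, ‖σ β - τ β‖ = ‖σ y‖ := by
    intro σ
    rw [e, norm_prod]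
  simp_rw [e']
  apply one_le_prod_norm (isIntegral_eval hβ _)
  intro h0
  obtain ⟨σ⟩ : Nonempty (K →ₐ[ℚ] ℂ) := ⟨IsAlgClosed.lift⟩
  have h1 := e σ
  rw [hy, h0, map_zero] at h1
  obtain ⟨τ, hτ, hτ2⟩ := Finset.prod_eq_zero_iff.mp h1.symm
  rw [Finset.mem_erase] at hτ
  apply hτ.1
  apply eq_of_gen hg (mem_fib.mp hτ.2)
  exact (sub_eq_zero.mp hτ2).symm

end Pool.Agent.R383.Rel
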