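import Mathlib
import Pool.Agent.R383.Rel.Int

/-!
# Primes at which the relative degree drops
-/

set_option autoImplicit false

open Finset Polynomial Module IntermediateField

namespace Pool.Agent.R383.Rel

variable {F K : Type*} [Field F] [NumberField F] [Field K] [NumberField K] [Algebra F K]

lemma mem_of_coprime {α : K} (h0 : α ≠ 0) (E : IntermediateField F K) {m n : ℕ}
    (hmn : Nat.Coprime m n) (hm : α ^ m ∈ E) (hn : α ^ n ∈ E) : α ∈ E := by
  have h1 := Nat.gcd_eq_gcd_ab m n
  rw [hmn] at h1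
  have h2 : α = (α ^ m) ^ (Nat.gcdA m n) * (α ^ n) ^ (Nat.gcdB m n) := by
    rw [← zpow_natCast α m, ← zpow_natCast α n, ← zpow_mul, ← zpow_mul, ← zpow_add₀ h0, ← h1]
    simp
  rw [h2]
  exact mul_mem (zpow_mem hm _) (zpow_mem hn _)

lemma two_mul_finrank_le [FiniteDimensional F K] {E E' : IntermediateField F K} (h : E < E') :
    2 * finrank F E ≤ finrank F E' := by
  obtain ⟨k, hk⟩ := IntermediateField.finrank_dvd_of_le_right h.le
  have hpos : 0 < finrank F E' := finrank_pos
  have hpos' : 0 < finrank F E := finrank_pos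
  have h1 : k ≠ 0 := by rintro rfl; omega
  have h2 : k ≠ 1 := by
    rintro rfl
    exact h.ne (IntermediateField.eq_of_le_of_finrank_eq h.le (by omega))
  have : 2 ≤ k := by omega
  nlinarith

lemma gen_of_mem {α β : K} (hg : Gen F α) (h : α ∈ adjoin F {β}) : Gen F β := by
  unfold Gen at *
  rw [eq_top_iff, ← hg, adjoin_simple_le_iff]
  exact h

lemma two_pow_bad {α : K} (h0 : α ≠ 0) (hg : Gen F α) (B : Finset ℕ) (hB : ∀ p ∈ B, p.Prime)
    (hbad : ∀ p ∈ B, ¬ Gen F (α ^ p)) :
    2 ^ B.card * finrank F (adjoin F {α ^ (∏ p ∈ B, p)}) ≤ finrank F K := by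
  classical
  have hfd := finite_ext (F := F) (K := K)
  induction B using Finset.induction_on with
  | empty =>
    simp only [Finset.card_empty, pow_zero, one_mul]
    exact Nat.le_of_dvd finrank_pos ⟨_, (finrank_mul_finrank F (adjoin F {α ^ (∏ p ∈ (∅ : Finset ℕ), p)}) K).symm⟩
  | insert p B hp ih =>
    have ih' := ih (fun q hq => hB q (Finset.mem_insert_of_mem hq))
      (fun q hq => hbad q (Finset.mem_insert_of_mem hq))
    set P := ∏ q ∈ B, q with hP
    have hcop : Nat.Coprime P p := by
      rw [hP]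
      apply Nat.Coprime.prod_left
      intro q hq
      rw [Nat.coprime_primes (hB q (Finset.mem_insert_of_mem hq)) (hB p (Finset.mem_insert_self _ _))]
      rintro rfl
      exact hp hq
    have hlt : adjoin F {α ^ (p * P)} < adjoin F {α ^ P} := by
      rw [lt_iff_le_not_ge]
      constructor
      · rw [adjoin_simple_le_iff, mul_comm, pow_mul]
        exact pow_mem (mem_adjoin_simple_self F _) p
      · intro hle
        rw [adjoin_simple_le_iff] at hle
        have h1 : adjoin F {α ^ (p * P)} ≤ adjoin F {α ^ p} := by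
          rw [adjoin_simple_le_iff, pow_mul]
          exact pow_mem (mem_adjoin_simple_self F _) P
        have h2 : α ∈ adjoin F {α ^ p} :=
          mem_of_coprime h0 _ hcop (h1 hle) (mem_adjoin_simple_self F _)
        exact hbad p (Finset.mem_insert_self _ _) (gen_of_mem hg h2)
    have h3 := two_mul_finrank_le hlt
    rw [Finset.card_insert_of_notMem hp, Finset.prod_insert hp, ← hP, pow_succ]
    calc 2 ^ B.card * 2 * finrank F (adjoin F {α ^ (p * P)})
        = 2 ^ B.card * (2 * finrank F (adjoin F {α ^ (p * P)})) := by ring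
      _ ≤ 2 ^ B.card * finrank F (adjoin F {α ^ P}) := Nat.mul_le_mul_left _ h3
      _ ≤ _ := ih'

lemma card_bad {α : K} (h0 : α ≠ 0) (hg : Gen F α) (B : Finset ℕ) (hB : ∀ p ∈ B, p.Prime)
    (hbad : ∀ p ∈ B, ¬ Gen F (α ^ p)) : 2 ^ B.card ≤ finrank F K := by
  have hfd := finite_ext (F := F) (K := K)
  have h := two_pow_bad h0 hg B hB hbad
  have h1 : 0 < finrank F (adjoin F {α ^ (∏ p ∈ B, p)}) := finrank_pos
  calc 2 ^ B.card = 2 ^ B.card * 1 := by ring
    _ ≤ _ := Nat.mul_le_mul_left _ h1
    _ ≤ _ := h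

end Pool.Agent.R383.Rel
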