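import Mathlib
import Pool.Agent.H388SL.DobC
import Pool.Agent.R383.Rel.Bad

/-!
# The relative energy inequality
-/

set_option autoImplicit false

open Finset Polynomial Module Pool.Agent.H388SL NumberField

namespace Pool.Agent.R383.Rel

variable {F K : Type*} [Field F] [NumberField F] [Field K] [NumberField K] [Algebra F K]

/-- the block of a pair `(p, σ)` -/
noncomputable def blk (φ : ℕ → F ≃+* F) (i : ℕ × (K →ₐ[ℚ] ℂ)) : F →+* ℂ :=
  (res F i.2).comp (φ i.1 : F →+* F)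

lemma blk_iff (φ : ℕ → F ≃+* F) (p q : ℕ) (σ τ : K →ₐ[ℚ] ℂ) :
    blk φ (p, σ) = blk φ (q, τ) ↔
      τ ∈ fib K ((res F σ).comp ((φ p : F →+* F).comp ((φ q).symm : F →+* F))) := by
  rw [mem_fib]
  unfold blk
  constructor
  · intro h
    ext a
    have h1 := RingHom.congr_fun h ((φ q).symm a)
    simp only [RingHom.comp_apply, RingHom.coe_coe, RingEquiv.apply_symm_apply] at h1 ⊢
    exact h1.symm
  · intro h
    ext a
    have h1 := RingHom.congr_fun h (φ q a)
    simp only [RingHom.comp_apply, RingHom.coe_coe, RingEquiv.symm_apply_apply] at h1 ⊢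
    exact h1.symm

lemma card_blk {γ : K} (hγ : Gen F γ) (φ : ℕ → F ≃+* F) (p : ℕ) (w : F →+* ℂ) [DecidableEq (F →+* ℂ)] :
    ((Finset.univ : Finset (K →ₐ[ℚ] ℂ)).filter fun σ => blk φ (p, σ) = w).card = finrank F K := by
  rw [← fib_card hγ (w.comp ((φ p).symm : F →+* F))]
  congr 1
  ext σ
  rw [mem_fib, Finset.mem_filter]
  simp only [Finset.mem_univ, true_and]
  unfold blk
  constructor
  · intro h
    ext a
    have h1 := RingHom.congr_fun h ((φ p).symm a)
    simp only [RingHom.comp_apply, RingHom.coe_coe, RingEquiv.apply_symm_apply] at h1 ⊢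
    exact h1
  · intro h
    ext a
    have h1 := RingHom.congr_fun h (φ p a)
    simp only [RingHom.comp_apply, RingHom.coe_coe, RingEquiv.symm_apply_apply] at h1 ⊢
    exact h1

/-- summation over blocks -/
lemma sum_blocks {ι κ : Type*} [DecidableEq ι] [Fintype κ] [DecidableEq κ] (s : Finset ι) (f : ι → κ)
    (D : ι → ι → ℝ) :
    ∑ w : κ, ∑ i ∈ s.filter (fun i => f i = w), ∑ j ∈ s.filter (fun j => f j = w), D i j =
      ∑ i ∈ s, ∑ j ∈ s, if f i = f j then D i j else 0 := by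
  have h1 : ∀ w : κ, ∑ i ∈ s.filter (fun i => f i = w), ∑ j ∈ s.filter (fun j => f j = w), D i j =
      ∑ i ∈ s.filter (fun i => f i = w), ∑ j ∈ s, if f i = f j then D i j else 0 := by
    intro w
    refine Finset.sum_congr rfl fun i hi => ?_
    rw [Finset.mem_filter] at hi
    rw [Finset.sum_filter]
    refine Finset.sum_congr rfl fun j _ => ?_
    rw [hi.2]
    by_cases h : f j = w
    · rw [if_pos h, if_pos h.symm]
    · rw [if_neg h, if_neg (fun h' => h h'.symm)]
  simp_rw [h1]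
  exact Finset.sum_fiberwise s f _

/-- the relative energy inequality for `α` and prime powers of `α` -/
theorem rel_ineq {α : K} (hα : IsIntegral ℤ α) (h0 : α ≠ 0) (hroot : ∀ n : ℕ, 0 < n → α ^ n ≠ 1)
    (hg : Gen F α) (P : Finset ℕ) (hP : ∀ p ∈ P, p.Prime) (hPg : ∀ p ∈ P, Gen F (α ^ p))
    (φ : ℕ → F ≃+* F) (hφ : ∀ p ∈ P, IsFrob p (φ p)) (hφ1 : φ 1 = RingEquiv.refl F)
    {A : ℝ} (hA : 0 ≤ A) {N : ℝ} (hN : 1 ≤ N) :
    2 * A * finrank ℚ F * ∑ p ∈ P, Real.log p ≤
      2 * (A + P.card) * (A + ∑ p ∈ P, (p : ℝ)) * lam α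
        + finrank ℚ F * (finrank F K * (A + P.card) ^ 2 / N + (A ^ 2 + P.card) * Real.log N) := by
  classical
  have hfd := finite_ext (F := F) (K := K)
  obtain ⟨m, hm⟩ : ∃ m, m = finrank F K := ⟨_, rfl⟩
  obtain ⟨r, hr⟩ : ∃ r, r = finrank ℚ F := ⟨_, rfl⟩
  rw [← hm, ← hr]
  have hm0 : 0 < m := by rw [hm]; exact finrank_pos
  have hn : finrank ℚ K = r * m := by rw [hm, hr]; exact (Module.finrank_mul_finrank ℚ F K).symm
  have hcardF : Fintype.card (F →+* ℂ) = r := by rw [hr]; exact NumberField.Embeddings.card F ℂ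
  have h1P : 1 ∉ P := fun h => Nat.not_prime_one (hP 1 h)
  set Q : Finset ℕ := insert 1 P with hQ
  have hQg : ∀ p ∈ Q, Gen F (α ^ p) := by
    intro p hp
    rw [hQ, Finset.mem_insert] at hp
    rcases hp with rfl | hp
    · rw [pow_one]; exact hg
    · exact hPg p hp
  set x : ℕ × (K →ₐ[ℚ] ℂ) → ℝ := fun i => if i.1 = 1 then A else 1 with hx
  set z : ℕ × (K →ₐ[ℚ] ℂ) → ℂ := fun i => i.2 (α ^ i.1) with hz
  set s : Finset (ℕ × (K →ₐ[ℚ] ℂ)) := Q ×ˢ Finset.univ with hs
  set f : ℕ × (K →ₐ[ℚ] ℂ) → (F →+* ℂ) := blk φ with hf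
  have hx0 : ∀ i ∈ s, 0 ≤ x i := by
    intro i _
    rw [hx]; dsimp only; split_ifs
    · exact hA
    · exact zero_le_one
  have hinj : ∀ w : F →+* ℂ, ∀ i ∈ s.filter (fun i => f i = w), ∀ j ∈ s.filter (fun i => f i = w),
      i ≠ j → z i ≠ z j := by
    rintro w ⟨p, σ⟩ hi ⟨q, τ⟩ hj hij
    rw [Finset.mem_filter, hs, Finset.mem_product] at hi hj
    by_cases hpq : p = q
    · subst hpq
      intro h
      have h3 : blk φ (p, σ) = blk φ (p, τ) := hi.2.trans hj.2.symm
      rw [blk_iff, mem_fib] at h3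
      have h4 : res F σ = res F τ := by
        rw [h3]
        ext a
        simp
      have h' : σ = τ := eq_of_gen (hQg p hi.1.1) h4 h
      exact hij (by rw [h'])
    · exact Pool.Agent.Y947.DM.conj_ne' hα h0 hroot hpq σ τ
  have ht0 : 0 ≤ 1 - 1 / N := by
    rw [sub_nonneg, div_le_one (by linarith)]; exact hN
  have ht1 : 1 - 1 / N < 1 := by
    have : 0 < 1 / N := by positivity
    linarith
  have hE0 := fun w : F →+* ℂ => energy (s.filter (fun i => f i = w)) x
    (fun i hi => hx0 i (Finset.mem_filter.mp hi).1) z (hinj w) ht0 ht1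
  -- sums over a block
  have b1 : ∀ w : F →+* ℂ, ∀ G : ℕ → ℝ, ∑ i ∈ s.filter (fun i => f i = w), G i.1 =
      m * ∑ p ∈ Q, G p := by
    intro w G
    rw [Finset.sum_filter, hs, Finset.sum_product, Finset.mul_sum]
    refine Finset.sum_congr rfl fun p hp => ?_
    dsimp only
    have hc : (Finset.univ.filter fun a : K →ₐ[ℚ] ℂ => f (p, a) = w).card = m := by
      rw [hm]
      convert card_blk hg φ p w
    rw [← Finset.sum_filter, Finset.sum_const, nsmul_eq_mul, hc]
  have b2 : ∀ w : F →+* ℂ, ∑ i ∈ s.filter (fun i => f i = w), x i = m * (A + P.card) := by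
    intro w
    rw [hx, b1 w (fun p => if p = 1 then A else 1), hQ, Finset.sum_insert h1P, if_pos rfl]
    congr 2
    rw [Finset.sum_congr rfl (g := fun _ => (1:ℝ))]
    · simp
    · intro p hp
      rw [if_neg (hP p hp).ne_one]
  have b3 : ∀ w : F →+* ℂ, ∑ i ∈ s.filter (fun i => f i = w), x i ^ 2 = m * (A ^ 2 + P.card) := by
    intro w
    rw [hx]
    have e := b1 w (fun p => (if p = 1 then A else 1 : ℝ) ^ 2)
    rw [e, hQ, Finset.sum_insert h1P, if_pos rfl]
    congr 2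
    rw [Finset.sum_congr rfl (g := fun _ => (1:ℝ))]
    · simp
    · intro p hp
      rw [if_neg (hP p hp).ne_one, one_pow]
  have hE := Finset.sum_le_sum fun w (_ : w ∈ (Finset.univ : Finset (F →+* ℂ))) => hE0 w
  simp only [b2, b3] at hE
  rw [Finset.sum_add_distrib, Finset.sum_add_distrib, Finset.sum_add_distrib] at hE
  have q1 : ∑ w : F →+* ℂ, 2 * ((m : ℝ) * (A + P.card)) *
      ∑ i ∈ s.filter (fun i => f i = w), x i * Real.log (max 1 ‖z i‖) =
      2 * ((m : ℝ) * (A + P.card)) * ∑ i ∈ s, x i * Real.log (max 1 ‖z i‖) := by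
    rw [← Finset.mul_sum, Finset.sum_fiberwise s f (fun i => x i * Real.log (max 1 ‖z i‖))]
  rw [q1, sum_blocks s f (fun i j => if i = j then 0 else x i * x j * Real.log ‖z i - z j‖)] at hE
  simp only [Finset.sum_const, Finset.card_univ, hcardF, nsmul_eq_mul] at hE
  -- lower bound of the left side
  set E : ℕ → ℕ → ℝ := fun p q => ∑ σ : K →ₐ[ℚ] ℂ, ∑ τ : K →ₐ[ℚ] ℂ,
    (if f (p, σ) = f (q, τ) then (if ((p, σ) : ℕ × (K →ₐ[ℚ] ℂ)) = (q, τ) then 0 else
      x (p, σ) * x (q, τ) * Real.log ‖z (p, σ) - z (q, τ)‖) else 0) with hEdef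
  have hLHS : ∑ i ∈ s, ∑ j ∈ s, (if f i = f j then (if i = j then 0 else
      x i * x j * Real.log ‖z i - z j‖) else 0) = ∑ p ∈ Q, ∑ q ∈ Q, E p q := by
    rw [hs, Finset.sum_product]
    refine Finset.sum_congr rfl fun p _ => ?_
    rw [hEdef]
    dsimp only
    conv_rhs => rw [Finset.sum_comm]
    refine Finset.sum_congr rfl fun σ _ => ?_
    rw [Finset.sum_product]
  -- the terms with p ≠ q
  have hEne : ∀ p q : ℕ, p ≠ q → E p q = ((if p = 1 then A else 1 : ℝ) * (if q = 1 then A else 1 : ℝ)) *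
      ∑ σ : K →ₐ[ℚ] ℂ, Real.log (∏ τ ∈ fib K ((res F σ).comp ((φ p : F →+* F).comp
        ((φ q).symm : F →+* F))), ‖σ (α ^ p) - τ (α ^ q)‖) := by
    intro p q hpq
    have hne := Pool.Agent.Y947.DM.conj_ne' hα h0 hroot hpq
    rw [hEdef]; dsimp only
    rw [Finset.mul_sum]
    refine Finset.sum_congr rfl fun σ _ => ?_
    rw [Real.log_prod (fun τ _ => norm_ne_zero_iff.mpr (sub_ne_zero.mpr (hne σ τ))), Finset.mul_sum,
      ← Finset.sum_filter]
    refine Finset.sum_congr ?_ fun τ hτ => ?_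
    · ext τ
      rw [Finset.mem_filter, hf, blk_iff]
      simp
    · rw [if_neg]
      intro h
      exact hpq (Prod.ext_iff.mp h).1
  have hEnn : ∀ p ∈ Q, ∀ q ∈ Q, 0 ≤ E p q := by
    intro p hp q hq
    have hxp : 0 ≤ (if p = 1 then A else 1 : ℝ) := by split_ifs; exacts [hA, zero_le_one]
    have hxq : 0 ≤ (if q = 1 then A else 1 : ℝ) := by split_ifs; exacts [hA, zero_le_one]
    by_cases hpq : p = q
    · subst hpq
      have h1 := one_le_reldisc (F := F) (hα.pow p) (hQg p hp)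
      have h2 := Real.log_nonneg h1
      have hfib : ∀ σ : K →ₐ[ℚ] ℂ, (res F σ).comp ((φ p : F →+* F).comp ((φ p).symm : F →+* F)) =
          res F σ := by
        intro σ; ext a; simp
      have hnz : ∀ σ : K →ₐ[ℚ] ℂ, ∀ τ ∈ (fib K (res F σ)).erase σ, ‖σ (α ^ p) - τ (α ^ p)‖ ≠ 0 := by
        intro σ τ hτ h
        rw [Finset.mem_erase] at hτ
        apply hτ.1
        apply eq_of_gen (hQg p hp) (mem_fib.mp hτ.2)
        exact (sub_eq_zero.mp (norm_eq_zero.mp h)).symm
      rw [Real.log_prod] at h2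
      · have h3 : E p p = ((if p = 1 then A else 1 : ℝ) * (if p = 1 then A else 1 : ℝ)) *
            ∑ σ : K →ₐ[ℚ] ℂ, Real.log (∏ τ ∈ (fib K (res F σ)).erase σ, ‖σ (α ^ p) - τ (α ^ p)‖) := by
          rw [hEdef]; dsimp only
          rw [Finset.mul_sum]
          refine Finset.sum_congr rfl fun σ _ => ?_
          rw [Real.log_prod (hnz σ), Finset.mul_sum, ← Finset.sum_filter]
          have hσ : σ ∈ (Finset.univ.filter fun τ => f (p, σ) = f (p, τ)) := by simp
          rw [← Finset.add_sum_erase _ _ hσ, if_pos rfl, zero_add]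
          refine Finset.sum_congr ?_ fun τ hτ => ?_
          · congr 1
            ext τ
            rw [Finset.mem_filter, hf, blk_iff, hfib]
            simp
          · rw [if_neg]
            intro h
            exact (Finset.ne_of_mem_erase hτ) (Prod.ext_iff.mp h).2.symm
        rw [h3]
        exact mul_nonneg (mul_nonneg hxp hxp) h2
      · intro σ _
        exact Finset.prod_ne_zero_iff.mpr (hnz σ)
    · have hne := Pool.Agent.Y947.DM.conj_ne' hα h0 hroot hpq
      have h1 := one_le_tw ((φ p : F →+* F).comp ((φ q).symm : F →+* F)) (hα.pow q) (hα.pow p)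
        (hQg q hq) hne
      have h2 := Real.log_nonneg h1
      rw [Real.log_prod (fun σ _ => Finset.prod_ne_zero_iff.mpr fun τ _ =>
        norm_ne_zero_iff.mpr (sub_ne_zero.mpr (hne σ τ)))] at h2
      rw [hEne p q hpq]
      exact mul_nonneg (mul_nonneg hxp hxq) h2
  have hE1 : ∀ p ∈ P, A * (r * m * Real.log p) ≤ E p 1 ∧ A * (r * m * Real.log p) ≤ E 1 p := by
    intro p hp
    have hpp := hP p hp
    have hp1 : p ≠ 1 := hpp.ne_one
    have hne' := Pool.Agent.Y947.DM.conj_ne' hα h0 hroot hp1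
    have hne : ∀ σ τ : K →ₐ[ℚ] ℂ, σ (α ^ p) ≠ τ α := by
      intro σ τ
      have := hne' σ τ
      rwa [pow_one] at this
    have h1 := pow_le_tw hpp (hφ p hp) hα hg hne
    have hp0 : (0:ℝ) < p := by exact_mod_cast hpp.pos
    have h2 := Real.log_le_log (by positivity) h1
    rw [Real.log_pow, hn, Real.log_prod (fun σ _ => Finset.prod_ne_zero_iff.mpr fun τ _ =>
        norm_ne_zero_iff.mpr (sub_ne_zero.mpr (hne σ τ)))] at h2
    push_cast at h2
    have h3 : E p 1 = A * ∑ σ : K →ₐ[ℚ] ℂ, Real.log (∏ τ ∈ fib K ((res F σ).comp (φ p : F →+* F)),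
        ‖σ (α ^ p) - τ α‖) := by
      rw [hEne p 1 hp1, if_neg hp1, if_pos rfl, one_mul]
      congr 1
      refine Finset.sum_congr rfl fun σ _ => ?_
      congr 1
      rw [hφ1, pow_one]
      rfl
    have h4 : E 1 p = E p 1 := by
      rw [hEdef]; dsimp only
      rw [Finset.sum_comm]
      refine Finset.sum_congr rfl fun σ _ => ?_
      refine Finset.sum_congr rfl fun τ _ => ?_
      by_cases hb : f (1, τ) = f (p, σ)
      · rw [if_pos hb, if_pos hb.symm, if_neg, if_neg]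
        · rw [norm_sub_rev]; ring
        · intro h
          exact hp1 (Prod.ext_iff.mp h).1
        · intro h
          exact hp1 (Prod.ext_iff.mp h).1.symm
      · rw [if_neg hb, if_neg (fun h => hb h.symm)]
    rw [h4, h3]
    exact ⟨mul_le_mul_of_nonneg_left h2 hA, mul_le_mul_of_nonneg_left h2 hA⟩
  have hlow : 2 * A * (r * m) * ∑ p ∈ P, Real.log p ≤ ∑ p ∈ Q, ∑ q ∈ Q, E p q := by
    have e1 : ∑ p ∈ Q, ∑ q ∈ Q, E p q = (E 1 1 + ∑ q ∈ P, E 1 q) + ∑ p ∈ P, (E p 1 + ∑ q ∈ P, E p q) := by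
      rw [hQ, Finset.sum_insert h1P, Finset.sum_insert h1P]
      congr 1
      refine Finset.sum_congr rfl fun p _ => ?_
      rw [Finset.sum_insert h1P]
    have m1 : (1:ℕ) ∈ Q := Finset.mem_insert_self _ _
    have mP : ∀ p ∈ P, p ∈ Q := fun p hp => Finset.mem_insert_of_mem hp
    have i1 : 0 ≤ E 1 1 := hEnn 1 m1 1 m1
    have i2 : ∑ p ∈ P, A * (r * m * Real.log p) ≤ ∑ q ∈ P, E 1 q :=
      Finset.sum_le_sum fun p hp => (hE1 p hp).2
    have i3 : ∑ p ∈ P, A * (r * m * Real.log p) ≤ ∑ p ∈ P, (E p 1 + ∑ q ∈ P, E p q) := by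
      refine Finset.sum_le_sum fun p hp => ?_
      have := (hE1 p hp).1
      have h2 : 0 ≤ ∑ q ∈ P, E p q := Finset.sum_nonneg fun q hq => hEnn p (mP p hp) q (mP q hq)
      linarith
    have e2 : ∑ p ∈ P, A * (r * m * Real.log p) = A * (r * m) * ∑ p ∈ P, Real.log p := by
      rw [Finset.mul_sum]
      refine Finset.sum_congr rfl fun p _ => ?_
      ring
    rw [e2] at i2 i3
    rw [e1]
    linarith
  have r3 : ∑ i ∈ s, x i * Real.log (max 1 ‖z i‖) = (A + ∑ p ∈ P, (p : ℝ)) * lam α := by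
    rw [hs, Finset.sum_product, hQ, Finset.sum_insert h1P]
    have : ∀ p ∈ P, ∑ σ : K →ₐ[ℚ] ℂ, x (p, σ) * Real.log (max 1 ‖z (p, σ)‖) = p * lam α := by
      intro p hp
      rw [← lam_pow, lam]
      refine Finset.sum_congr rfl fun σ _ => ?_
      simp [hx, hz, (hP p hp).ne_one]
    rw [Finset.sum_congr rfl this, ← Finset.sum_mul]
    have h1 : ∑ σ : K →ₐ[ℚ] ℂ, x (1, σ) * Real.log (max 1 ‖z (1, σ)‖) = A * lam α := by
      rw [lam, Finset.mul_sum]
      refine Finset.sum_congr rfl fun σ _ => ?_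
      simp [hx, hz]
    rw [h1]; ring
  rw [hLHS, r3] at hE
  have hN0 : 0 < N := by linarith
  have e1 : 1 / (1 - (1 - 1 / N)) = N := by
    field_simp; ring
  rw [e1] at hE
  -- bound for log (2 / (1 + t))
  have e2 : Real.log (2 / (1 + (1 - 1 / N))) ≤ 1 / N := by
    have h1 : 1 + (1 - 1 / N) = (2 * N - 1) / N := by field_simp; ring
    have h2 : 2 / (1 + (1 - 1 / N)) = 1 + 1 / (2 * N - 1) := by
      rw [h1]
      have : 2 * N - 1 ≠ 0 := by nlinarith
      field_simp; ring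
    rw [h2]
    have h3 : 0 < 1 / (2 * N - 1) := by apply div_pos one_pos; nlinarith
    have h4 := Real.log_le_sub_one_of_pos (show 0 < 1 + 1 / (2 * N - 1) by linarith)
    have h5 : 1 / (2 * N - 1) ≤ 1 / N := by
      apply one_div_le_one_div_of_le hN0; linarith
    linarith
  have h6 : 0 ≤ ∑ w : F →+* ℂ, (1 - 1 / N) *
      ‖∑ i ∈ s.filter (fun i => f i = w), (x i : ℂ) * H388SL.refl (z i)‖ ^ 2 :=
    Finset.sum_nonneg fun w _ => by positivity
  have h7 : (r : ℝ) * (((m : ℝ) * (A + P.card)) ^ 2 * Real.log (2 / (1 + (1 - 1 / N)))) ≤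
      r * (((m : ℝ) * (A + P.card)) ^ 2 * (1 / N)) :=
    mul_le_mul_of_nonneg_left (mul_le_mul_of_nonneg_left e2 (by positivity)) (Nat.cast_nonneg _)
  have h8 : (m : ℝ) * (2 * A * r * ∑ p ∈ P, Real.log p) ≤
      m * (2 * (A + P.card) * (A + ∑ p ∈ P, (p : ℝ)) * lam α
        + r * (m * (A + P.card) ^ 2 / N + (A ^ 2 + P.card) * Real.log N)) := by
    have e3 : (m : ℝ) * (2 * (A + P.card) * (A + ∑ p ∈ P, (p : ℝ)) * lam α
        + r * (m * (A + P.card) ^ 2 / N + (A ^ 2 + P.card) * Real.log N)) =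
        2 * ((m : ℝ) * (A + P.card)) * ((A + ∑ p ∈ P, (p : ℝ)) * lam α) +
          r * (((m : ℝ) * (A + P.card)) ^ 2 * (1 / N)) + r * ((m * (A ^ 2 + P.card)) * Real.log N) := by
      ring
    rw [e3]
    linarith
  have hm' : (0:ℝ) < m := by exact_mod_cast hm0
  exact le_of_mul_le_mul_left h8 hm'

end Pool.Agent.R383.Rel
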