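import Mathlib
import Pool.Agent.R383.Rel.Ineq

/-!
# The relative bound
-/

set_option autoImplicit false

open Finset Polynomial Module Pool.Agent.H388SL NumberField

namespace Pool.Agent.R383.Rel

/-- the real-variable part -/
lemma real_part {δ m l Y r S s SP lm : ℝ} (hδ : 0 < δ) (hm1 : 1 ≤ m) (hl : Real.log m ≤ l)
    (hY1 : 1 ≤ Y) (hr2 : r ^ 2 = Y) (hr1 : 1 ≤ r)
    (hlr : 16 * l ≤ δ * r)
    (hasy : 1 + 4 * Real.log (2 * Y) ≤ 3 * δ / 8 * r)
    (hPsum : δ * Y / 2 ≤ S) (hs0 : 0 ≤ s) (hs : s ≤ Y) (hSP0 : 0 ≤ SP) (hSP : SP ≤ Y * Y)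
    (hlam : 0 ≤ lm)
    (hmain : 2 * r * S ≤ 2 * (r + s) * (r + SP) * lm + (m * (r + s) ^ 2 / (m * (2 * Y) ^ 2)
      + (r ^ 2 + s) * Real.log (m * (2 * Y) ^ 2))) :
    δ / (16 * (Y * r)) ≤ lm := by
  have hrY : r ≤ Y := by rw [← hr2]; nlinarith
  have hrY2 : r ≤ Y * Y := by nlinarith
  have t1 : 2 * (r + s) * (r + SP) * lm ≤ 8 * Y ^ 3 * lm := by
    apply mul_le_mul_of_nonneg_right _ hlam
    have h1 : 2 * (r + s) ≤ 4 * Y := by linarith
    have h2 : r + SP ≤ 2 * (Y * Y) := by linarith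
    have h3 := mul_le_mul h1 h2 (by linarith) (by linarith)
    have e : 4 * Y * (2 * (Y * Y)) = 8 * Y ^ 3 := by ring
    linarith
  have t2 : m * (r + s) ^ 2 / (m * (2 * Y) ^ 2) ≤ 1 := by
    rw [div_le_one (by positivity)]
    have h1 : (r + s) ^ 2 ≤ (2 * Y) ^ 2 := by
      apply pow_le_pow_left₀ (by linarith); linarith
    exact mul_le_mul_of_nonneg_left h1 (by linarith)
  have hN1 : 1 ≤ m * (2 * Y) ^ 2 := by
    have : (1:ℝ) ≤ (2 * Y) ^ 2 := by nlinarith
    nlinarith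
  have t3 : Real.log (m * (2 * Y) ^ 2) ≤ l + 2 * Real.log (2 * Y) := by
    rw [Real.log_mul (by positivity) (by positivity), Real.log_pow]
    push_cast
    linarith
  have t4 : (r ^ 2 + s) * Real.log (m * (2 * Y) ^ 2) ≤ (2 * Y) * (l + 2 * Real.log (2 * Y)) := by
    apply mul_le_mul _ t3 (Real.log_nonneg hN1) (by linarith)
    rw [hr2]; linarith
  have t5 : δ * (Y * r) ≤ 2 * r * S := by
    have := mul_le_mul_of_nonneg_left hPsum (by linarith : 0 ≤ 2 * r)
    linarith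
  have t7 : (2 * Y) * (l + 2 * Real.log (2 * Y)) ≤ Y * (δ * r / 8 + 3 * δ / 8 * r - 1) := by
    have h1 : (2 * Y) * (l + 2 * Real.log (2 * Y)) = Y * (2 * l + 4 * Real.log (2 * Y)) := by ring
    rw [h1]
    apply mul_le_mul_of_nonneg_left _ (by linarith)
    linarith
  have e8 : Y * (δ * r / 8 + 3 * δ / 8 * r - 1) = δ * (Y * r) / 2 - Y := by ring
  rw [e8] at t7
  have t8 : δ * (Y * r) / 2 ≤ 8 * Y ^ 3 * lm := by linarith
  have hY0 : 0 < Y := by linarith
  have hr0 : 0 < r := by linarith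
  rw [div_le_iff₀ (by positivity)]
  have e9 : 8 * Y ^ 3 * lm = (Y * r) * (lm * (8 * (Y * r))) := by
    rw [← hr2]; ring
  rw [e9] at t8
  have e10 : δ * (Y * r) / 2 = (Y * r) * (δ / 2) := by ring
  rw [e10] at t8
  have h := le_of_mul_le_mul_left t8 (by positivity)
  linarith

open Classical in
/-- the primes up to `Y` with a Frobenius automorphism -/
noncomputable def FP (F : Type*) [Field F] [NumberField F] (Y : ℕ) : Finset ℕ :=
  (Finset.Icc 1 Y).filter fun p => p.Prime ∧ ∃ φ : F ≃+* F, IsFrob p φ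

/-- relative Dobrowolski bound -/
theorem rel_dob (δ : ℝ) (hδ : 0 < δ) : ∃ C : ℝ, 0 < C ∧ ∀ (F K : Type) [Field F] [NumberField F]
    [Field K] [NumberField K] [Algebra F K] (α : K), IsIntegral ℤ α →
    α ≠ 0 → (∀ n : ℕ, 0 < n → α ^ n ≠ 1) → Gen F α → ∀ Y : ℕ,
    C * (Real.log (2 * finrank F K)) ^ 2 ≤ Y → δ * Y ≤ ∑ p ∈ FP F Y, Real.log p →
    finrank ℚ F / (C * (Y * Real.sqrt Y)) ≤ lam α := by
  set q0 : ℝ := 1 + 64 / δ with hq0
  have hq01 : 1 ≤ q0 := by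
    have : 0 < 64 / δ := by positivity
    linarith
  have hqδ : 64 ≤ q0 * δ := by
    have : q0 * δ = δ + 64 := by rw [hq0]; field_simp
    linarith
  refine ⟨16 * q0 ^ 4, by positivity, ?_⟩
  intro F K _ _ _ _ _ α hα h0 hroot hg Y hY hsum
  classical
  have hfd := finite_ext (F := F) (K := K)
  set m := finrank F K with hm
  have hm0 : 1 ≤ m := finrank_pos
  have hm1 : (1:ℝ) ≤ m := by exact_mod_cast hm0
  set l := Real.log (2 * m) with hl
  have hlog2 := Real.log_two_gt_d9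
  have hl2 : Real.log 2 ≤ l := Real.log_le_log (by norm_num) (by linarith)
  have hl0 : 0 < l := by linarith
  have hlm : Real.log m ≤ l := Real.log_le_log (by linarith) (by linarith)
  have hq4 : 1 ≤ q0 ^ 4 := one_le_pow₀ hq01
  have hYq : 4 * q0 ^ 4 ≤ Y := by
    have h1 : (1:ℝ)/4 ≤ l ^ 2 := by nlinarith
    have h2 : 16 * q0 ^ 4 * (1/4) ≤ 16 * q0 ^ 4 * l ^ 2 := mul_le_mul_of_nonneg_left h1 (by positivity)
    linarith
  have hY1' : (1:ℝ) ≤ Y := by linarith
  have hY1 : 1 ≤ Y := by exact_mod_cast hY1'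
  set r := Real.sqrt Y with hr
  have hr2 : r ^ 2 = Y := Real.sq_sqrt (Nat.cast_nonneg Y)
  have hr1 : 1 ≤ r := by
    rw [hr, ← Real.sqrt_one]; exact Real.sqrt_le_sqrt hY1'
  have hrq : 2 * q0 ^ 2 ≤ r := by
    rw [hr]; apply Real.le_sqrt_of_sq_le
    calc (2 * q0 ^ 2) ^ 2 = 4 * q0 ^ 4 := by ring
      _ ≤ (Y:ℝ) := hYq
  have hlr0 : 4 * q0 ^ 2 * l ≤ r := by
    rw [hr]; apply Real.le_sqrt_of_sq_le
    calc (4 * q0 ^ 2 * l) ^ 2 = 16 * q0 ^ 4 * l ^ 2 := by ring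
      _ ≤ (Y:ℝ) := hY
  have hlr : 16 * l ≤ δ * r := by
    have h1 : δ * (4 * q0 ^ 2 * l) ≤ δ * r := mul_le_mul_of_nonneg_left hlr0 hδ.le
    have h2 : δ * (4 * q0 ^ 2 * l) = 4 * (q0 * δ) * (q0 * l) := by ring
    have h3 : 4 * 64 * (1 * l) ≤ 4 * (q0 * δ) * (q0 * l) := by
      apply mul_le_mul (by linarith) _ (by positivity) (by positivity)
      exact mul_le_mul_of_nonneg_right hq01 hl0.le
    linarith
  set t := Real.sqrt r with ht
  have ht2 : t ^ 2 = r := Real.sq_sqrt (by linarith)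
  have htq : q0 ≤ t := by
    rw [ht]; apply Real.le_sqrt_of_sq_le
    nlinarith
  have ht1 : 1 ≤ t := hq01.trans htq
  have hlogY : Real.log (2 * Y) ≤ 0.7 + 4 * t := by
    have h1 : (Y:ℝ) = t ^ 4 := by rw [← hr2, ← ht2]; ring
    rw [Real.log_mul (by norm_num) (by positivity), h1, Real.log_pow]
    have h2 := Real.log_le_sub_one_of_pos (show 0 < t by linarith)
    have h3 := Real.log_two_lt_d9
    push_cast
    linarith
  have hδt : 64 ≤ δ * t := by
    have : q0 * δ ≤ t * δ := mul_le_mul_of_nonneg_right htq hδ.le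
    linarith
  have hδr : 64 * t ≤ δ * r := by
    rw [← ht2]
    have : 64 * t ≤ (δ * t) * t := mul_le_mul_of_nonneg_right hδt (by linarith)
    linarith
  have hasy : 1 + 4 * Real.log (2 * Y) ≤ 3 * δ / 8 * r := by
    have h1 : 3 * δ / 8 * r = 3 / 8 * (δ * r) := by ring
    rw [h1]
    linarith
  -- the sets of primes
  set T : Finset ℕ := FP F Y with hT
  set P := T.filter (fun p => Gen F (α ^ p)) with hP
  set B := T.filter (fun p => ¬ Gen F (α ^ p)) with hB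
  have hTp : ∀ p ∈ T, (p.Prime ∧ ∃ φ : F ≃+* F, IsFrob p φ) ∧ p ≤ Y := by
    intro p hp
    rw [hT, FP, Finset.mem_filter, Finset.mem_Icc] at hp
    exact ⟨hp.2, hp.1.2⟩
  have hsplit : ∑ p ∈ T, Real.log p = ∑ p ∈ P, Real.log p + ∑ p ∈ B, Real.log p :=
    (Finset.sum_filter_add_sum_filter_not T _ _).symm
  have hBcard : (B.card : ℝ) * Real.log 2 ≤ l := by
    have h1 := card_bad h0 hg B (fun p hp => (hTp p (Finset.mem_filter.mp hp).1).1.1)
      (fun p hp => (Finset.mem_filter.mp hp).2)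
    have h2 : ((2:ℝ) ^ B.card) ≤ m := by exact_mod_cast h1
    have h3 := Real.log_le_log (by positivity) h2
    rw [Real.log_pow] at h3
    linarith
  have hBsum : ∑ p ∈ B, Real.log p ≤ B.card * Real.log Y := by
    rw [← nsmul_eq_mul]
    apply Finset.sum_le_card_nsmul
    intro p hp
    have h1 := hTp p (Finset.mem_filter.mp hp).1
    apply Real.log_le_log
    · exact_mod_cast h1.1.1.pos
    · exact_mod_cast h1.2
  have hlogYY : Real.log Y ≤ Real.log (2 * Y) := by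
    apply Real.log_le_log (by linarith); linarith
  have hlogY0 : 0 ≤ Real.log Y := Real.log_nonneg hY1'
  have hBs2 : ∑ p ∈ B, Real.log p ≤ δ * Y / 2 := by
    have h1 : (B.card : ℝ) ≤ 2 * l := by
      have : (B.card : ℝ) * (1/2) ≤ B.card * Real.log 2 := by
        apply mul_le_mul_of_nonneg_left _ (Nat.cast_nonneg _); linarith
      linarith
    have h2 : Real.log Y ≤ 3 * δ / 32 * r := by linarith
    calc ∑ p ∈ B, Real.log p ≤ B.card * Real.log Y := hBsum
      _ ≤ (2 * l) * (3 * δ / 32 * r) := by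
        apply mul_le_mul h1 h2 hlogY0 (by linarith)
      _ = (3 * δ / 16 * r) * l := by ring
      _ ≤ (3 * δ / 16 * r) * r := by
        apply mul_le_mul_of_nonneg_left _ (by positivity)
        have : 1 * l ≤ 4 * q0 ^ 2 * l := by
          apply mul_le_mul_of_nonneg_right _ hl0.le
          nlinarith
        linarith
      _ = 3 * δ / 16 * Y := by rw [← hr2]; ring
      _ ≤ δ * Y / 2 := by nlinarith [mul_pos hδ (show (0:ℝ) < Y by linarith)]
  have hPsum : δ * Y / 2 ≤ ∑ p ∈ P, Real.log p := by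
    rw [hsplit] at hsum
    linarith
  -- the automorphisms
  have hex : ∀ p : ℕ, ∃ φ : F ≃+* F, (p ∈ P → IsFrob p φ) ∧ (p = 1 → φ = RingEquiv.refl F) := by
    intro p
    by_cases hp : p ∈ P
    · obtain ⟨⟨hpp, φ, hφ⟩, _⟩ := hTp p (Finset.mem_filter.mp hp).1
      exact ⟨φ, fun _ => hφ, fun h => absurd h hpp.ne_one⟩
    · exact ⟨RingEquiv.refl F, fun h => absurd h hp, fun _ => rfl⟩
  choose φ hφ1 hφ2 using hex
  have hN1 : (1:ℝ) ≤ m * (2 * Y) ^ 2 := by
    have : (1:ℝ) ≤ (2 * Y) ^ 2 := by nlinarith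
    nlinarith
  have hmain := rel_ineq hα h0 hroot hg P (fun p hp => (hTp p (Finset.mem_filter.mp hp).1).1.1)
    (fun p hp => (Finset.mem_filter.mp hp).2) φ (fun p hp => hφ1 p hp) (hφ2 1 rfl)
    (A := r) (by linarith) (N := m * (2 * Y) ^ 2) hN1
  rw [← hm] at hmain
  have hPcard : (P.card : ℝ) ≤ Y := by
    have h1 : P.card ≤ (Finset.Icc 1 Y).card := by
      apply Finset.card_le_card
      exact (Finset.filter_subset _ _).trans (Finset.filter_subset _ _)
    rw [Nat.card_Icc] at h1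
    exact_mod_cast (by omega : P.card ≤ Y)
  have hPp : ∑ p ∈ P, (p : ℝ) ≤ Y * Y := by
    calc ∑ p ∈ P, (p : ℝ) ≤ P.card • (Y:ℝ) := by
          apply Finset.sum_le_card_nsmul
          intro p hp
          exact_mod_cast (hTp p (Finset.mem_filter.mp hp).1).2
      _ = P.card * Y := by rw [nsmul_eq_mul]
      _ ≤ Y * Y := by gcongr
  have hPp0 : 0 ≤ ∑ p ∈ P, (p : ℝ) := Finset.sum_nonneg fun _ _ => Nat.cast_nonneg _
  set R : ℝ := (finrank ℚ F : ℝ) with hR
  have hR0 : 0 < R := by rw [hR]; exact_mod_cast (finrank_pos : 0 < finrank ℚ F)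
  have hmain2 : 2 * r * ∑ p ∈ P, Real.log p ≤ 2 * (r + P.card) * (r + ∑ p ∈ P, (p : ℝ)) *
      (lam α / R) + (m * (r + P.card) ^ 2 / (m * (2 * Y) ^ 2)
      + (r ^ 2 + P.card) * Real.log (m * (2 * Y) ^ 2)) := by
    have h1 : R * (2 * r * ∑ p ∈ P, Real.log p) ≤ R * (2 * (r + P.card) * (r + ∑ p ∈ P, (p : ℝ)) *
      (lam α / R) + (m * (r + P.card) ^ 2 / (m * (2 * Y) ^ 2)
      + (r ^ 2 + P.card) * Real.log (m * (2 * Y) ^ 2))) := by
      have e1 : R * (2 * (r + P.card) * (r + ∑ p ∈ P, (p : ℝ)) *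
        (lam α / R) + (m * (r + P.card) ^ 2 / (m * (2 * Y) ^ 2)
        + (r ^ 2 + P.card) * Real.log (m * (2 * Y) ^ 2))) =
        2 * (r + P.card) * (r + ∑ p ∈ P, (p : ℝ)) * lam α + R * (m * (r + P.card) ^ 2 / (m * (2 * Y) ^ 2)
        + (r ^ 2 + P.card) * Real.log (m * (2 * Y) ^ 2)) := by
        rw [mul_add]
        congr 1
        field_simp
      rw [e1]
      linarith
    exact le_of_mul_le_mul_left h1 hR0
  have hfin := real_part hδ hm1 hlm hY1' hr2 hr1 hlr hasy hPsum (Nat.cast_nonneg _) hPcard hPp0 hPp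
    (div_nonneg (lam_nonneg α) hR0.le) hmain2
  rw [le_div_iff₀ hR0] at hfin
  refine le_trans ?_ hfin
  have hYr : 0 < (Y:ℝ) * r := by positivity
  rw [div_mul_eq_mul_div, div_le_div_iff₀ (by positivity) (by positivity)]
  have h1 : 1 ≤ δ * q0 ^ 4 := by
    have h2 : 64 * 1 ≤ (q0 * δ) * q0 ^ 3 := mul_le_mul hqδ (one_le_pow₀ hq01) (by norm_num) (by positivity)
    nlinarith
  have h2 : R * (16 * (Y * r)) * 1 ≤ R * (16 * (Y * r)) * (δ * q0 ^ 4) :=
    mul_le_mul_of_nonneg_left h1 (by positivity)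
  nlinarith

end Pool.Agent.R383.Rel
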