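import Mathlib
import Pool.Agent.Y947.DL.Fin
import Pool.Agent.R383.Rel.Dob

/-!
# The relative bound for polynomials
-/

set_option autoImplicit false

open Finset Polynomial Module Pool.Agent.H388SL NumberField IntermediateField Pool.Agent.Y947.DL

namespace Pool.Agent.R383.Rel

/-- the bound for a monic polynomial with a factor over `F` -/
lemma monic_form {δ C : ℝ} (hC : ∀ (F K : Type) [Field F] [NumberField F]
    [Field K] [NumberField K] [Algebra F K] (α : K), IsIntegral ℤ α →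
    α ≠ 0 → (∀ n : ℕ, 0 < n → α ^ n ≠ 1) → Gen F α → ∀ Y : ℕ,
    C * (Real.log (2 * finrank F K)) ^ 2 ≤ Y → δ * Y ≤ ∑ p ∈ FP F Y, Real.log p →
    finrank ℚ F / (C * (Y * Real.sqrt Y)) ≤ lam α) (hC0 : 0 < C)
    (F : Type) [Field F] [NumberField F] (f : ℤ[X]) (g : F[X]) (Y : ℕ) (hf : Irreducible f)
    (hm : f.Monic) (hM : 1 < MM f) (hg : Irreducible g) (hgf : g ∣ f.map (algebraMap ℤ F))
    (hY : C * (Real.log (2 * g.natDegree)) ^ 2 ≤ Y) (hsum : δ * Y ≤ ∑ p ∈ FP F Y, Real.log p) :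
    f.natDegree / (C * (g.natDegree * (Y * Real.sqrt Y))) ≤ Real.log (MM f) := by
  have hfact : Fact (Irreducible g) := ⟨hg⟩
  have hg0 : g ≠ 0 := hg.ne_zero
  have hfin : FiniteDimensional F (AdjoinRoot g) := (AdjoinRoot.powerBasis hg0).finite
  have hchar : CharZero (AdjoinRoot g) :=
    charZero_of_injective_algebraMap (algebraMap F (AdjoinRoot g)).injective
  have hNF : NumberField (AdjoinRoot g) :=
    { to_charZero := hchar, to_finiteDimensional := Module.Finite.trans F (AdjoinRoot g) }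
  set α : AdjoinRoot g := AdjoinRoot.root g with hα
  have hroot : aeval α f = 0 := by
    obtain ⟨h, hh⟩ := hgf
    have h1 : aeval α (f.map (algebraMap ℤ F)) = 0 := by
      rw [hh, map_mul, hα, AdjoinRoot.aeval_eq, AdjoinRoot.mk_self, zero_mul]
    rwa [Polynomial.aeval_map_algebraMap] at h1
  have hint : IsIntegral ℤ α := ⟨f, hm, by rw [← Polynomial.aeval_def]; exact hroot⟩
  have hgen : Gen F α := IntermediateField.adjoin_root_eq_top g
  have hdeg : finrank F (AdjoinRoot g) = g.natDegree := by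
    rw [(AdjoinRoot.powerBasis hg0).finrank, AdjoinRoot.powerBasis_dim]
  obtain ⟨hNF2, hrep⟩ := exists_rep f hf hm α hroot
  have hgα : algebraMap (adjoin ℚ {α}) (AdjoinRoot g) (AdjoinSimple.gen ℚ α) = α :=
    AdjoinSimple.algebraMap_gen ℚ α
  have hnr : ∀ n : ℕ, 0 < n → α ^ n ≠ 1 := by
    intro n hn h
    apply hrep.not_root hM n hn
    apply (algebraMap (adjoin ℚ {α}) (AdjoinRoot g)).injective
    rw [map_pow, hgα, h, map_one]
  have hlam : lam α = finrank (adjoin ℚ {α}) (AdjoinRoot g) * Real.log (MM f) := by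
    rw [hrep.log_MM, lam, sum_embeddings' α (fun z => Real.log (max 1 ‖z‖)), nsmul_eq_mul]
    rfl
  have hα0 : α ≠ 0 := by
    intro h
    have h1 : lam α = 0 := by
      unfold lam
      apply Finset.sum_eq_zero
      intro σ _
      rw [h, map_zero, norm_zero, max_eq_left zero_le_one, Real.log_one]
    rw [hlam] at h1
    have h2 : (0:ℝ) < finrank (adjoin ℚ {α}) (AdjoinRoot g) := by exact_mod_cast finrank_pos
    have h3 := Real.log_pos hM
    have := mul_pos h2 h3
    linarith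
  have hmain := hC F (AdjoinRoot g) α hint hα0 hnr hgen Y (by rw [hdeg]; exact hY) hsum
  rw [hlam] at hmain
  -- degrees
  have hd1 : finrank ℚ F * g.natDegree = f.natDegree * finrank (adjoin ℚ {α}) (AdjoinRoot g) := by
    rw [← hdeg, Module.finrank_mul_finrank, ← hrep.fin, Module.finrank_mul_finrank]
  obtain ⟨k, hk⟩ : ∃ k : ℝ, k = finrank (adjoin ℚ {α}) (AdjoinRoot g) := ⟨_, rfl⟩
  have hk0 : 0 < k := by rw [hk]; exact_mod_cast finrank_pos
  have hgd : (0:ℝ) < g.natDegree := by exact_mod_cast hg.natDegree_pos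
  have hd2 : (finrank ℚ F : ℝ) * g.natDegree = f.natDegree * k := by
    rw [hk]; exact_mod_cast hd1
  rw [← hk] at hmain
  have e1 : (f.natDegree : ℝ) / (C * (g.natDegree * (Y * Real.sqrt Y))) =
      (finrank ℚ F / (C * (Y * Real.sqrt Y))) / k := by
    by_cases hY0 : (Y:ℝ) * Real.sqrt Y = 0
    · rw [hY0]; simp
    · rw [div_div, div_eq_div_iff (mul_ne_zero hC0.ne' (mul_ne_zero hgd.ne' hY0))
        (mul_ne_zero (mul_ne_zero hC0.ne' hY0) hk0.ne')]
      calc (f.natDegree : ℝ) * (C * (Y * Real.sqrt Y) * k) =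
          (f.natDegree * k) * (C * (Y * Real.sqrt Y)) := by ring
        _ = _ := by rw [← hd2]; ring
  rw [e1, div_le_iff₀ hk0]
  linarith

theorem poly_form (δ : ℝ) (hδ : 0 < δ) : ∃ C : ℝ, 0 < C ∧ ∀ (F : Type) [Field F] [NumberField F]
    (f : ℤ[X]) (g : F[X]) (Y : ℕ), Irreducible f → 1 < MM f → Irreducible g →
    g ∣ f.map (algebraMap ℤ F) → C * (Real.log (2 * g.natDegree)) ^ 2 ≤ Y →
    δ * Y ≤ ∑ p ∈ FP F Y, Real.log p →
    min (Real.log 2) (f.natDegree / (C * (g.natDegree * (Y * Real.sqrt Y)))) ≤ Real.log (MM f) := by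
  obtain ⟨C, hC0, hC⟩ := rel_dob δ hδ
  refine ⟨C, hC0, ?_⟩
  intro F _ _ f g Y hf hM hg hgf hY hsum
  by_cases hbig : 2 ≤ MM f
  · exact (min_le_left _ _).trans (Real.log_le_log (by norm_num) hbig)
  push Not at hbig
  refine (min_le_right _ _).trans ?_
  have hf0 : f ≠ 0 := hf.ne_zero
  have hlc : |f.leadingCoeff| = 1 := by
    have h1 : 1 ≤ |f.leadingCoeff| := Int.one_le_abs (leadingCoeff_ne_zero.mpr hf0)
    have h3 := leadingCoeff_le_MM f
    by_contra hne
    have h2 : 2 ≤ |f.leadingCoeff| := by omega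
    have h4 : (2:ℝ) ≤ |(f.leadingCoeff : ℝ)| := by exact_mod_cast h2
    linarith
  rcases (abs_eq (by norm_num : (0:ℤ) ≤ 1)).mp hlc with h | h
  · exact monic_form hC hC0 F f g Y hf h hM hg hgf hY hsum
  · have h1 := monic_form hC hC0 F (-f) g Y
      (by simpa using (irreducible_units_mul (-1 : ℤ[X]ˣ)).mpr hf) (by
        rw [Monic, leadingCoeff_neg, h]; norm_num) (by rw [MM_neg]; exact hM) hg
      (by rw [Polynomial.map_neg]; exact (dvd_neg).mpr hgf) hY hsum
    rw [MM_neg, natDegree_neg] at h1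
    exact h1

end Pool.Agent.R383.Rel
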